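import Pool.Agent.Work.MP_055a27_an.Sg.Main
import Pool.Agent.Work.MP_055a27_an.Wd.Main

/-!
# All weights satisfying `(⋆)`, for all apertures
-/

open MeasureTheory Set Complex
open scoped ENNReal NNReal
open Pool.Agent.Work.MP_055a27_an

namespace Pool.Agent.Results.MP_055a27_an.AllWeights

/-- The supremum of the `y ≥ 1` such that the integral of `U` over `[x - y, x + y]` is at least
`exp (c y)` (zero if there is no such `y`). -/
noncomputable def reach (U : ℝ → ℝ) (c x : ℝ) : ℝ≥0∞ :=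
  ⨆ (y : ℝ) (_ : 1 ≤ y ∧ Real.exp (c * y) ≤ ∫ t in Icc (x - y) (x + y), U t), ENNReal.ofReal y

/-- Fast growth: for every `c > 0` the integral of `reach U c x / (1 + x ^ 2)` is infinite. -/
def FastGrowth (U : ℝ → ℝ) : Prop :=
  ∀ c : ℝ, 0 < c → ∫⁻ x : ℝ, reach U c x * ENNReal.ofReal (1 / (1 + x ^ 2)) = ∞

/-- The shadow condition with aperture `μ`: the integral of `U` over `[x - μ y, x + μ y]` is at
most a constant times `y` times the exponential of the Poisson integral of `log U` at `(x, y)`. -/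
def Shadow (μ : ℝ) (U : ℝ → ℝ) : Prop :=
  ∃ C : ℝ, ∀ x y : ℝ, 0 < y → ∫ t in Icc (x - μ * y) (x + μ * y), U t ≤
    C * y * Real.exp (poisson (fun t : ℝ => Real.log (U t)) x y)

/-- Superharmonic functions on the upper half plane, of class `C ^ 2` and bounded below. -/
def Superharmonic (v : ℂ → ℝ) : Prop :=
  ContDiffOn ℝ 2 v {z : ℂ | 0 < z.im} ∧ (∀ z : ℂ, 0 < z.im → Laplacian.laplacian v z ≤ 0) ∧
    ∃ m : ℝ, ∀ z : ℂ, 0 < z.im → m ≤ v z

/-- The function `v` majorises, at each point `x + i y`, the logarithm of the integral of `U`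
over `[x - b y, x + b y]`. -/
def Majorises (b : ℝ) (U : ℝ → ℝ) (v : ℂ → ℝ) : Prop :=
  ∀ x y : ℝ, 0 < y → ∫ t in Icc (x - b * y) (x + b * y), U t ≤ Real.exp (v (x + y * I))

/-- The superharmonic `A_∞` condition: with the constants `C, ε > 0`, for every superharmonic `v`
which majorises `log U([x - b y, x + b y])` and all `x`, `y > 0`, and all measurable
`E ⊆ [x - b y / 2, x + b y / 2]`, the integral of `U` over `E` is at most
`C (|E| / y) ^ ε exp (v (x + i y))`. -/
def SuperAInfty (b : ℝ) (U : ℝ → ℝ) : Prop :=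
  ∃ C ε : ℝ, 0 < C ∧ 0 < ε ∧ ∀ v : ℂ → ℝ, Superharmonic v → Majorises b U v →
    ∀ x y : ℝ, 0 < y → ∀ E : Set ℝ, MeasurableSet E → E ⊆ Icc (x - b / 2 * y) (x + b / 2 * y) →
      ∫ t in E, U t ≤ C * (volume.real E / y) ^ ε * Real.exp (v (x + y * I))

lemma condV_iff_super (b : ℝ) (U : ℝ → ℝ) : Wd.CondV (b / 2) b U ↔ SuperAInfty b U := by
  have hp : ∀ z : ℂ, ((z.re : ℂ) + (z.im : ℂ) * I) = z := fun z => Complex.re_add_im z
  have hmaj : ∀ v : ℂ → ℝ, Wd.Dom b U v ↔ Majorises b U v := by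
    intro v
    constructor
    · intro h x y hy
      have := h ((x : ℂ) + y * I) (mem_uhp hy)
      simpa [Wd.Iv] using this
    · intro h z hz
      have := h z.re z.im hz
      rwa [hp z] at this
  constructor
  · rintro ⟨C, ε, hC, hε, h⟩
    refine ⟨C, ε, hC, hε, fun v hv hm x y hy E hE hEs => ?_⟩
    have := h v ⟨hv.1, hv.2.1⟩ hv.2.2 ((hmaj v).2 hm) ((x : ℂ) + y * I) (mem_uhp hy) E hE
      (by simpa [Wd.Iv] using hEs)
    simpa using this
  · rintro ⟨C, ε, hC, hε, h⟩
    refine ⟨C, ε, hC, hε, fun v hv hb hm z hz E hE hEs => ?_⟩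
    have := h v ⟨hv.1, hv.2, hb⟩ ((hmaj v).1 hm) z.re z.im hz E hE hEs
    rwa [hp z] at this

/-- All weights satisfying `(⋆)`. If `b ≤ lam` these are: the weights which vanish almost
everywhere, the weights of fast growth, and the almost everywhere positive weights `U` for which
`log U` has a Poisson integral and the shadow condition holds with some aperture larger than
`lam`. If `lam < b` these are the weights which satisfy the superharmonic `A_∞` condition. -/
theorem result (lam b p : ℝ) (hlam : 0 < lam) (hb : 0 < b) (hp : 1 < p) (U : ℝ → ℝ)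
    (hU : IsWeight U) :
    (b ≤ lam → (Star lam b p U ↔ (∀ᵐ x, U x = 0) ∨ FastGrowth U ∨
      ((∀ᵐ x, 0 < U x) ∧ Admissible (fun t : ℝ => Real.log (U t)) ∧
        ∃ μ : ℝ, lam < μ ∧ Shadow μ U))) ∧
    (lam < b → (Star lam b p U ↔ SuperAInfty b U)) := by
  refine ⟨fun hbl => ?_, fun hlb => ?_⟩
  · rw [Sg.main_ble hb hbl hp hU]
    have h1 : (¬ Fn.NVd U) ↔ FastGrowth U := by
      unfold Fn.NVd FastGrowth
      push Not
      rfl
    have h2 : ∀ μ : ℝ, Cr3.Sh μ U ↔ Shadow μ U := by
      intro μ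
      constructor
      · rintro ⟨C, _, hC⟩
        refine ⟨C, fun x y hy => ?_⟩
        rw [mul_assoc]
        exact hC x y hy
      · rintro ⟨C, hC⟩
        refine ⟨max C 1, lt_of_lt_of_le one_pos (le_max_right _ _), fun x y hy => ?_⟩
        refine (hC x y hy).trans ?_
        rw [mul_assoc]
        have : 0 ≤ y * Real.exp (poisson (fun t : ℝ => Real.log (U t)) x y) := by positivity
        exact mul_le_mul_of_nonneg_right (le_max_left _ _) this
    have h3 : Cr3.Wt U ↔ ((∀ᵐ x, 0 < U x) ∧ Admissible (fun t : ℝ => Real.log (U t))) := by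
      constructor
      · rintro ⟨_, h4, h5⟩
        exact ⟨h4, h5⟩
      · rintro ⟨h4, h5⟩
        exact ⟨hU, h4, h5⟩
    rw [h1, h3]
    simp only [h2, and_assoc]
  · rw [Wd.main_half hlam hlb (by linarith) hU, condV_iff_super]

end Pool.Agent.Results.MP_055a27_an.AllWeights
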