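import Pool.Agent.Work.MP_055a27_an.Iterate

/-!
# `A_∞` is necessary for `(⋆)` for doubling weights, all apertures
-/

open Pool.Agent.Work.MP_055a27_an

namespace Pool.Agent.Results.MP_055a27_an.NecDoubling

/-- For all apertures and exponents, a doubling weight satisfying `(⋆)` is in `A_∞`. -/
theorem result (lam b p : ℝ) (hlam : 0 < lam) (hb : 0 < b) (hp : 0 < p) (U : ℝ → ℝ)
    (hU : IsWeight U) (hD : Doubling U) (hS : Star lam b p U) : AInfty U := by
  obtain ⟨D, hD'⟩ := (doubling_iff hU).1 hD
  exact ainfty_of_doublingM hlam hb hp hU hD' hS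

end Pool.Agent.Results.MP_055a27_an.NecDoubling
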